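import Mathlib

/-! Log-concavity of the explicit polynomial. -/

namespace Pool.Agent.P.MP_6e91db_co

open Polynomial

/-- A strong form of log-concavity of the coefficient sequence. -/
def SLC (P : ℝ[X]) : Prop :=
  (∀ i, 0 ≤ P.coeff i) ∧
    ∀ i j, i ≤ j → P.coeff i * P.coeff (j + 2) ≤ P.coeff (i + 1) * P.coeff (j + 1)

/-- Positivity of the coefficients up to index `N`. -/
def POS (P : ℝ[X]) (N : ℕ) : Prop := ∀ i ≤ N, 0 < P.coeff i

lemma coeff_lin_zero (c : ℝ) (P : ℝ[X]) : ((X + C c) * P).coeff 0 = c * P.coeff 0 := by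
  simp [add_mul]

lemma coeff_lin_succ (c : ℝ) (P : ℝ[X]) (k : ℕ) :
    ((X + C c) * P).coeff (k + 1) = P.coeff k + c * P.coeff (k + 1) := by
  simp [add_mul, coeff_X_mul]

lemma SLC.lin {P : ℝ[X]} (h : SLC P) {c : ℝ} (hc : 0 ≤ c) : SLC ((X + C c) * P) := by
  obtain ⟨h0, h1⟩ := h
  constructor
  · intro i
    cases i with
    | zero => rw [coeff_lin_zero]; exact mul_nonneg hc (h0 0)
    | succ k => rw [coeff_lin_succ]; exact add_nonneg (h0 _) (mul_nonneg hc (h0 _))
  · intro i j hij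
    cases i with
    | zero =>
      rw [coeff_lin_zero, coeff_lin_succ, coeff_lin_succ, coeff_lin_succ]
      have a1 := h1 0 j hij
      have a2 := mul_nonneg (h0 0) (h0 j)
      have a3 := mul_nonneg hc (mul_nonneg (h0 1) (h0 j))
      have a4 := mul_le_mul_of_nonneg_left a1 (mul_nonneg hc hc)
      simp only [zero_add] at *
      nlinarith
    | succ i =>
      obtain ⟨j, rfl⟩ : ∃ j', j = j' + 1 := ⟨j - 1, by omega⟩
      rw [coeff_lin_succ, coeff_lin_succ, coeff_lin_succ, coeff_lin_succ]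
      have a1 := h1 i j (by omega)
      have a2 := h1 (i + 1) (j + 1) (by omega)
      have a3 := h1 i (j + 1) (by omega)
      have a4 : P.coeff (i + 1) * P.coeff (j + 2) ≤ P.coeff (i + 2) * P.coeff (j + 1) := by
        rcases Nat.lt_or_ge i j with hlt | hge
        · exact h1 (i + 1) j hlt
        · have : i = j := by omega
          subst this
          exact (mul_comm _ _).le
      have a5 := mul_le_mul_of_nonneg_left a2 (mul_nonneg hc hc)
      have a6 := mul_le_mul_of_nonneg_left (a3.trans a4) hc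
      simp only [add_assoc, Nat.reduceAdd] at *
      nlinarith

lemma POS.lin {P : ℝ[X]} {N : ℕ} (h : POS P N) (h0 : ∀ i, 0 ≤ P.coeff i) {c : ℝ} (hc : 0 < c) :
    POS ((X + C c) * P) (N + 1) := by
  intro i hi
  cases i with
  | zero => rw [coeff_lin_zero]; exact mul_pos hc (h 0 (Nat.zero_le _))
  | succ k =>
    rw [coeff_lin_succ]
    exact add_pos_of_pos_of_nonneg (h k (by omega)) (mul_nonneg hc.le (h0 _))

lemma prod_lin (m : Multiset ℝ) (hm : ∀ c ∈ m, 1 ≤ c) :
    SLC (m.map fun c => X + C c).prod ∧ POS (m.map fun c => X + C c).prod (Multiset.card m) ∧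
      (m.map fun c => X + C c).prod.coeff 1 ≤
        (Multiset.card m : ℝ) * (m.map fun c => X + C c).prod.coeff 0 := by
  induction m using Multiset.induction_on with
  | empty =>
    refine ⟨⟨fun i => ?_, fun i j _ => ?_⟩, fun i hi => ?_, by simp [coeff_one]⟩
    · simp only [Multiset.map_zero, Multiset.prod_zero, coeff_one]; split_ifs <;> norm_num
    · simp [coeff_one]
    · have : i = 0 := by simpa using hi
      subst this; simp
  | cons c m ih =>
    obtain ⟨h1, h2, h3⟩ := ih fun d hd => hm d (Multiset.mem_cons_of_mem hd)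
    have hc : 1 ≤ c := hm c (Multiset.mem_cons_self _ _)
    rw [Multiset.map_cons, Multiset.prod_cons, Multiset.card_cons]
    refine ⟨h1.lin (by linarith), h2.lin h1.1 (by linarith), ?_⟩
    rw [coeff_lin_succ, coeff_lin_zero]
    have a0 := h1.1 0
    have a1 := mul_le_mul_of_nonneg_left h3 (by linarith : 0 ≤ c)
    push_cast
    nlinarith

lemma one_add_X_mul {K : ℝ[X]} {N : ℕ} (h1 : SLC K) (h2 : POS K N)
    (h3 : K.coeff 1 ≤ K.coeff 0 * K.coeff 0) : SLC (1 + X * K) ∧ POS (1 + X * K) (N + 1) := by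
  have c0 : (1 + X * K).coeff 0 = 1 := by simp
  have cs : ∀ k, (1 + X * K).coeff (k + 1) = K.coeff k := fun k => by
    simp [coeff_X_mul, coeff_one]
  have p0 := h2 0 (Nat.zero_le _)
  refine ⟨⟨fun i => ?_, fun i j hij => ?_⟩, fun i hi => ?_⟩
  · cases i with
    | zero => rw [c0]; norm_num
    | succ k => rw [cs]; exact h1.1 k
  · cases i with
    | zero =>
      rw [c0, cs, cs, cs, one_mul]
      cases j with
      | zero => exact h3
      | succ j =>
        have a1 := h1.2 0 j (Nat.zero_le _)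
        have a2 := mul_le_mul_of_nonneg_right h3 (h1.1 (j + 1))
        simp only [zero_add] at *
        have a3 : K.coeff 0 * K.coeff (j + 2) ≤ K.coeff 0 * (K.coeff 0 * K.coeff (j + 1)) := by
          nlinarith
        exact le_of_mul_le_mul_left a3 p0
    | succ i =>
      obtain ⟨j, rfl⟩ : ∃ j', j = j' + 1 := ⟨j - 1, by omega⟩
      rw [cs, cs, cs, cs]
      exact h1.2 i j (by omega)
  · cases i with
    | zero => rw [c0]; norm_num
    | succ k => rw [cs]; exact h2 k (by omega)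

/-- Shifted Chebyshev polynomials. -/
noncomputable def ch : ℕ → ℝ[X]
  | 0 => 2
  | 1 => X + 3
  | n + 2 => (X + 3) * ch (n + 1) - ch n

lemma ch_add_two (n : ℕ) : ch (n + 2) = (X + 3) * ch (n + 1) - ch n := by rw [ch]

lemma ch_monic (n : ℕ) :
    (ch n).natDegree ≤ n ∧ (ch (n + 1)).Monic ∧ (ch (n + 1)).natDegree = n + 1 := by
  have hX : (X + 3 : ℝ[X]).Monic := monic_X_add_C (3 : ℝ)
  have hX' : (X + 3 : ℝ[X]).natDegree = 1 := natDegree_X_add_C (3 : ℝ)
  induction n with
  | zero =>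
    refine ⟨?_, hX, hX'⟩
    show (2 : ℝ[X]).natDegree ≤ 0
    simp
  | succ n ih =>
    obtain ⟨h1, h2, h3⟩ := ih
    have h4 : ((X + 3) * ch (n + 1)).natDegree = n + 2 := by
      rw [hX.natDegree_mul h2, hX', h3]; ring
    have h5 : (ch n).natDegree < ((X + 3) * ch (n + 1)).natDegree := by omega
    refine ⟨h3.le, ?_, ?_⟩
    · rw [ch_add_two]
      exact (hX.mul h2).sub_of_left (degree_lt_degree h5)
    · rw [ch_add_two, natDegree_sub_eq_left_of_natDegree_lt h5, h4]

lemma ch_aeval (z w : ℂ) (h : z * w = 1) (n : ℕ) :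
    aeval (z + w - 3) (ch n) = z ^ n + w ^ n ∧
      aeval (z + w - 3) (ch (n + 1)) = z ^ (n + 1) + w ^ (n + 1) := by
  induction n with
  | zero =>
    constructor
    · show aeval (z + w - 3) (2 : ℝ[X]) = _
      rw [map_ofNat]; norm_num
    · show aeval (z + w - 3) (X + 3 : ℝ[X]) = _
      rw [map_add, map_ofNat, aeval_X]; ring
  | succ n ih =>
    refine ⟨ih.2, ?_⟩
    rw [ch_add_two, map_sub, map_mul, map_add, map_ofNat, aeval_X, ih.1, ih.2]
    linear_combination (z ^ n + w ^ n) * h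

lemma ch_root (n : ℕ) (hn : n ≠ 0) (y : ℂ) (hy : aeval y (ch n - 2) = 0) :
    ∃ r : ℝ, r ≤ -1 ∧ y = r := by
  obtain ⟨s, hs⟩ := IsAlgClosed.exists_pow_nat_eq ((y + 3) ^ 2 - 4) (by norm_num : 0 < 2)
  set z := (y + 3 + s) / 2 with hz
  set w := (y + 3 - s) / 2 with hw
  have hzw : z * w = 1 := by rw [hz, hw]; linear_combination (-1 / 4 : ℂ) * hs
  have hy' : y = z + w - 3 := by rw [hz, hw]; ring
  have h1 := (ch_aeval z w hzw n).1
  rw [map_sub, map_ofNat, hy', h1] at hy
  have h2 : z ^ n * w ^ n = 1 := by rw [← mul_pow, hzw, one_pow]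
  have h3 : (z ^ n - 1) ^ 2 = 0 := by linear_combination z ^ n * hy - h2
  have h4 : z ^ n = 1 := by
    have := pow_eq_zero_iff (two_ne_zero) |>.1 h3
    linear_combination this
  have h5 : ‖z‖ = 1 := Complex.norm_eq_one_of_pow_eq_one h4 hn
  have h6 : w = (starRingEnd ℂ) z := by
    rw [← Complex.inv_eq_conj h5]
    exact eq_inv_of_mul_eq_one_right hzw
  have h7 : z.re ≤ 1 := h5 ▸ Complex.re_le_norm z
  refine ⟨2 * z.re - 3, by linarith, ?_⟩
  rw [hy', h6, Complex.add_conj]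
  push_cast
  ring

lemma ch_factor (n : ℕ) : ∃ m : Multiset ℝ, (∀ c ∈ m, 1 ≤ c) ∧ Multiset.card m = n + 1 ∧
    ch (n + 1) - 2 = (m.map fun c => X + C c).prod := by
  obtain ⟨-, h2, h3⟩ := ch_monic n
  have hd : (2 : ℝ[X]).natDegree < (ch (n + 1)).natDegree := by rw [h3]; simp
  have hm : (ch (n + 1) - 2).Monic := h2.sub_of_left (degree_lt_degree hd)
  have hdeg : (ch (n + 1) - 2).natDegree = n + 1 := by
    rw [natDegree_sub_eq_left_of_natDegree_lt hd, h3]
  have hs : (ch (n + 1) - 2).Splits := by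
    refine Splits.of_splits_map (algebraMap ℝ ℂ) (IsAlgClosed.splits _) fun a ha => ?_
    have h1 : aeval a (ch (n + 1) - 2) = 0 := by
      rw [aeval_def, ← eval_map]
      exact isRoot_of_mem_roots ha
    obtain ⟨r, -, hr⟩ := ch_root (n + 1) (by omega) a h1
    exact ⟨r, hr.symm⟩
  refine ⟨(ch (n + 1) - 2).roots.map fun r => -r, ?_, ?_, ?_⟩
  · intro c hc
    obtain ⟨r, hr, rfl⟩ := Multiset.mem_map.1 hc
    have h1 : aeval (r : ℂ) (ch (n + 1) - 2) = 0 := by
      have := aeval_algebraMap_apply ℂ r (ch (n + 1) - 2)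
      rw [coe_aeval_eq_eval, isRoot_of_mem_roots hr] at this
      simpa using this
    obtain ⟨r', hr', h⟩ := ch_root (n + 1) (by omega) r h1
    have : r = r' := by exact_mod_cast h
    linarith
  · rw [Multiset.card_map, ← hs.natDegree_eq_card_roots, hdeg]
  · conv_lhs => rw [hs.eq_prod_roots_of_monic hm]
    rw [Multiset.map_map]
    congr 1
    refine Multiset.map_congr rfl fun r _ => ?_
    simp [sub_eq_add_neg]

lemma ch_coeff_zero (n : ℕ) :
    (ch n).coeff 0 ≤ (ch (n + 1)).coeff 0 ∧ 2 * ((n : ℝ) + 1) ≤ (ch (n + 1)).coeff 0 := by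
  induction n with
  | zero =>
    have h0 : (ch 0).coeff 0 = 2 := by
      show (2 : ℝ[X]).coeff 0 = 2
      simp
    have h1 : (ch 1).coeff 0 = 3 := by
      show (X + 3 : ℝ[X]).coeff 0 = 3
      simp
    rw [h0, h1]; norm_num
  | succ n ih =>
    have h : (ch (n + 2)).coeff 0 = 3 * (ch (n + 1)).coeff 0 - (ch n).coeff 0 := by
      rw [ch_add_two]; simp [add_mul]
    have hn : (0 : ℝ) ≤ n := Nat.cast_nonneg n
    rw [h]
    push_cast
    constructor <;> linarith [ih.1, ih.2]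

/-- The f-polynomial. -/
noncomputable def fpoly (n : ℕ) : ℝ[X] :=
  (X + 1) ^ 4 * (1 + X * ((X + 1) ^ n * (ch (n + 2) - 2)))

lemma fpoly_lc (n : ℕ) : SLC (fpoly n) ∧ POS (fpoly n) (2 * n + 7) := by
  obtain ⟨m, hm1, hm2, hm3⟩ := ch_factor (n + 1)
  let m' := Multiset.replicate n (1 : ℝ) + m
  have e1 : (X + 1) ^ n * (ch (n + 2) - 2) = (m'.map fun c => X + C c).prod := by
    rw [hm3]; simp [m']
  have e2 : Multiset.card m' = 2 * n + 2 := by simp [m', hm2]; ring
  obtain ⟨h1, h2, h3⟩ := prod_lin m' (by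
    intro c hc
    rcases Multiset.mem_add.1 hc with h | h
    · exact (Multiset.eq_of_mem_replicate h).ge
    · exact hm1 c h)
  rw [← e1, e2] at h2 h3
  rw [← e1] at h1
  have e3 : ((X + 1) ^ n * (ch (n + 2) - 2) : ℝ[X]).coeff 0 = (ch (n + 2)).coeff 0 - 2 := by
    simp [coeff_zero_eq_eval_zero]
  have h4 := (ch_coeff_zero (n + 1)).2
  have p0 := h2 0 (Nat.zero_le _)
  have h5 : ((X + 1) ^ n * (ch (n + 2) - 2) : ℝ[X]).coeff 1 ≤
      ((X + 1) ^ n * (ch (n + 2) - 2) : ℝ[X]).coeff 0 *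
        ((X + 1) ^ n * (ch (n + 2) - 2) : ℝ[X]).coeff 0 := by
    refine h3.trans (mul_le_mul_of_nonneg_right ?_ p0.le)
    rw [e3]
    push_cast at h4 ⊢
    linarith
  obtain ⟨a1, a2⟩ := one_add_X_mul h1 h2 h5
  have b1 := a1.lin zero_le_one
  have b2 := a2.lin a1.1 zero_lt_one
  have c1 := b1.lin zero_le_one
  have c2 := b2.lin b1.1 zero_lt_one
  have d1 := c1.lin zero_le_one
  have d2 := c2.lin c1.1 zero_lt_one
  have f1 := d1.lin zero_le_one
  have f2 := d2.lin d1.1 zero_lt_one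
  have e4 : fpoly n = (X + C 1) * ((X + C 1) * ((X + C 1) * ((X + C 1) *
      (1 + X * ((X + 1) ^ n * (ch (n + 2) - 2)))))) := by
    rw [fpoly, C_1]; ring
  rw [e4]
  exact ⟨f1, f2⟩

end Pool.Agent.P.MP_6e91db_co
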