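import Mathlib

/-! Faces of a polyhedron given by finitely many linear inequalities. -/

namespace Pool.Agent.P.MP_6e91db_co

open Filter Topology

section Poly
variable {E : Type*} [AddCommGroup E] [Module ℝ E] [TopologicalSpace E] [IsTopologicalAddGroup E]
  {C : Type*} [Fintype C] (l : C → E →L[ℝ] ℝ) (b : C → ℝ)

/-- The polyhedron. -/
def poly : Set E := {x | ∀ c, l c x ≤ b c}

/-- Constraints tight at a point. -/
def tight (x : E) : Set C := {c | l c x = b c}

/-- The smallest face containing a point. -/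
def face (x : E) : Set E := {y | y ∈ poly l b ∧ tight l b x ⊆ tight l b y}

/-- Directions of the smallest face. -/
def dir (x : E) : Submodule ℝ E where
  carrier := {d | ∀ c ∈ tight l b x, l c d = 0}
  add_mem' := fun {u v} hu hv c hc => by simp [hu c hc, hv c hc]
  zero_mem' := fun c _ => by simp
  smul_mem' := fun r u hu c hc => by simp [hu c hc]

variable {l b}

omit [IsTopologicalAddGroup E] in
lemma small {x d : E} (hx : x ∈ poly l b) (hd : d ∈ dir l b x) :
    ∃ e : ℝ, 0 < e ∧ x + e • d ∈ face l b x := by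
  have h1 : ∀ c, ∀ᶠ e : ℝ in 𝓝 0, l c (x + e • d) ≤ b c := by
    intro c
    by_cases hc : c ∈ tight l b x
    · refine Eventually.of_forall fun e => ?_
      have := hd c hc
      simp [this, hx c]
    · have hlt : l c x < b c := lt_of_le_of_ne (hx c) hc
      have hcont : Continuous fun e : ℝ => l c x + e * l c d := by fun_prop
      have : ∀ᶠ e : ℝ in 𝓝 0, l c x + e * l c d < b c :=
        hcont.continuousAt.eventually_lt continuousAt_const (by simpa using hlt)
      filter_upwards [this] with e he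
      simpa using he.le
  have h2 : ∀ᶠ e : ℝ in 𝓝 0, ∀ c, l c (x + e • d) ≤ b c := eventually_all.2 h1
  have h3 : ∀ᶠ e : ℝ in 𝓝[>] 0, ∀ c, l c (x + e • d) ≤ b c := h2.filter_mono nhdsWithin_le_nhds
  obtain ⟨e, he1, he2⟩ := (h3.and self_mem_nhdsWithin).exists
  refine ⟨e, he2, he1, fun c hc => ?_⟩
  have h4 := hd c hc
  have h5 : l c x = b c := hc
  show l c (x + e • d) = b c
  simp [h4, h5]

omit [IsTopologicalAddGroup E] [Fintype C] in
lemma self_mem_face {x : E} (hx : x ∈ poly l b) : x ∈ face l b x := ⟨hx, subset_rfl⟩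

lemma face_exposed {x : E} (hx : x ∈ poly l b) : IsExposed ℝ (poly l b) (face l b x) := by
  classical
  intro _
  let T : Finset C := Finset.univ.filter fun c => c ∈ tight l b x
  have hT : ∀ c, c ∈ T ↔ c ∈ tight l b x := by simp [T]
  have hle : ∀ y ∈ poly l b, ∑ c ∈ T, l c y ≤ ∑ c ∈ T, b c :=
    fun y hy => Finset.sum_le_sum fun c _ => hy c
  refine ⟨∑ c ∈ T, l c, Set.ext fun y => ⟨?_, ?_⟩⟩
  · rintro ⟨hy, hxy⟩
    refine ⟨hy, fun z hz => ?_⟩
    have : ∑ c ∈ T, l c y = ∑ c ∈ T, b c :=
      Finset.sum_congr rfl fun c hc => hxy ((hT c).1 hc)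
    simp only [FunLike.coe_sum, Finset.sum_apply]
    rw [this]
    exact hle z hz
  · rintro ⟨hy, hmax⟩
    refine ⟨hy, fun c hc => ?_⟩
    have h1 := hmax x hx
    simp only [FunLike.coe_sum, Finset.sum_apply] at h1
    have h2 : ∑ c ∈ T, l c x = ∑ c ∈ T, b c :=
      Finset.sum_congr rfl fun c hc => (hT c).1 hc
    have h3 : ∑ c ∈ T, l c y = ∑ c ∈ T, b c := le_antisymm (hle y hy) (h2 ▸ h1)
    exact (Finset.sum_eq_sum_iff_of_le fun c _ => hy c).1 h3 c ((hT c).2 hc)

omit [IsTopologicalAddGroup E] in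
lemma exposed_eq {F : Set E} (hF : IsExposed ℝ (poly l b) F) (hne : F.Nonempty) :
    ∃ x ∈ poly l b, F = face l b x := by
  classical
  obtain ⟨m, hm⟩ := hF hne
  obtain ⟨x, hxF, hmin⟩ := exists_minimalFor_of_wellFoundedLT (fun x => x ∈ F)
    (fun x => (tight l b x).ncard) hne
  have hx : x ∈ poly l b ∧ ∀ y ∈ poly l b, m y ≤ m x := by rw [hm] at hxF; exact hxF
  refine ⟨x, hx.1, Set.ext fun y => ⟨fun hyF => ?_, ?_⟩⟩
  · have hy : y ∈ poly l b ∧ ∀ z ∈ poly l b, m z ≤ m y := by rw [hm] at hyF; exact hyF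
    refine ⟨hy.1, ?_⟩
    let w : E := (1 / 2 : ℝ) • (x + y)
    have hw : ∀ f : E →L[ℝ] ℝ, f w = (f x + f y) / 2 := by
      intro f; simp [w]; ring
    have hwP : w ∈ poly l b := fun c => by
      rw [hw]; have := hx.1 c; have := hy.1 c; linarith
    have hwF : w ∈ F := by
      rw [hm]
      refine ⟨hwP, fun z hz => ?_⟩
      rw [hw]; have := hx.2 z hz; have := hy.2 z hz; linarith
    have hsub : tight l b w ⊆ tight l b x ∩ tight l b y := by
      intro c hc
      have h1 : l c w = b c := hc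
      rw [hw] at h1
      have := hx.1 c; have := hy.1 c
      exact ⟨by show l c x = b c; linarith, by show l c y = b c; linarith⟩
    have hsub1 : tight l b w ⊆ tight l b x := hsub.trans Set.inter_subset_left
    have hle : (tight l b x).ncard ≤ (tight l b w).ncard :=
      hmin hwF (Set.ncard_le_ncard hsub1)
    have heq : tight l b w = tight l b x := Set.eq_of_subset_of_ncard_le hsub1 hle
    rw [← heq]
    exact hsub.trans Set.inter_subset_right
  · rintro ⟨hy, hxy⟩
    have hd : x - y ∈ dir l b x := fun c hc => by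
      have h1 : l c x = b c := hc
      have h2 : l c y = b c := hxy hc
      simp [h1, h2]
    obtain ⟨e, he, hmem⟩ := small hx.1 hd
    have h1 := hx.2 _ hmem.1
    have h2 : m (x + e • (x - y)) = m x + e * (m x - m y) := by simp
    have h3 : m x ≤ m y := by nlinarith
    rw [hm]
    exact ⟨hy, fun z hz => (hx.2 z hz).trans h3⟩

omit [IsTopologicalAddGroup E] [Fintype C] in
lemma face_eq_iff {x y : E} (hx : x ∈ poly l b) (hy : y ∈ poly l b) :
    face l b x = face l b y ↔ tight l b x = tight l b y := by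
  constructor
  · intro h
    have h1 : x ∈ face l b y := h ▸ self_mem_face hx
    have h2 : y ∈ face l b x := h ▸ self_mem_face hy
    exact Set.Subset.antisymm h2.2 h1.2
  · intro h
    simp [face, h]

omit [IsTopologicalAddGroup E] in
lemma vectorSpan_face {x : E} (hx : x ∈ poly l b) : vectorSpan ℝ (face l b x) = dir l b x := by
  apply le_antisymm
  · rw [vectorSpan_def, Submodule.span_le]
    rintro _ ⟨y, hy, z, hz, rfl⟩ c hc
    have h1 : l c y = b c := hy.2 hc
    have h2 : l c z = b c := hz.2 hc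
    simp [h1, h2]
  · intro d hd
    obtain ⟨e, he, hmem⟩ := small hx hd
    have h1 := vsub_mem_vectorSpan ℝ hmem (self_mem_face hx)
    have h2 : d = e⁻¹ • ((x + e • d) -ᵥ x) := by
      simp [smul_smul, inv_mul_cancel₀ he.ne']
    rw [h2]
    exact Submodule.smul_mem _ _ h1

/-- Counting faces through a complete combinatorial invariant of the tight set. -/
lemma count_faces {T : Type*} (tp : E → T) (valid : Set T) (dm : T → ℕ)
    (h1 : ∀ x ∈ poly l b, ∀ y ∈ poly l b, (tp x = tp y ↔ tight l b x = tight l b y))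
    (h2 : ∀ x ∈ poly l b, tp x ∈ valid)
    (h3 : ∀ t ∈ valid, ∃ x ∈ poly l b, tp x = t)
    (h4 : ∀ x ∈ poly l b, Module.finrank ℝ (dir l b x) = dm (tp x)) (i : ℕ) :
    {F : Set E | IsExposed ℝ (poly l b) F ∧ F.Nonempty ∧
      Module.finrank ℝ (vectorSpan ℝ F) = i}.ncard = {t | t ∈ valid ∧ dm t = i}.ncard := by
  choose rep hrep hrep' using h3
  symm
  refine Set.ncard_congr (fun t ht => face l b (rep t ht.1)) ?_ ?_ ?_
  · intro t ht
    refine ⟨face_exposed (hrep t ht.1), ⟨_, self_mem_face (hrep t ht.1)⟩, ?_⟩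
    rw [vectorSpan_face (hrep t ht.1), h4 _ (hrep t ht.1), hrep', ht.2]
  · intro s t hs ht h
    rw [face_eq_iff (hrep s hs.1) (hrep t ht.1), ← h1 _ (hrep s hs.1) _ (hrep t ht.1), hrep',
      hrep'] at h
    exact h
  · rintro F ⟨hF, hne, hdim⟩
    obtain ⟨x, hx, rfl⟩ := exposed_eq hF hne
    rw [vectorSpan_face hx, h4 x hx] at hdim
    refine ⟨tp x, ⟨h2 x hx, hdim⟩, ?_⟩
    rw [face_eq_iff (hrep _ (h2 x hx)) hx, ← h1 _ (hrep _ (h2 x hx)) x hx, hrep']

end Poly

/-- A dimension count from a set of free coordinates and one equation per other coordinate. -/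
lemma finrank_eq_card {Q : Type*} [Fintype Q] [DecidableEq Q] (W : Submodule ℝ (Q → ℝ))
    (Fr : Finset Q) (lam : Q → (Q → ℝ) →ₗ[ℝ] ℝ)
    (h1 : ∀ d : Q → ℝ, (∀ p, p ∉ Fr → lam p d = 0) → d ∈ W)
    (h2 : ∀ d ∈ W, (∀ p ∈ Fr, d p = 0) → d = 0) : Module.finrank ℝ W = Fr.card := by
  apply le_antisymm
  · let R : W →ₗ[ℝ] (Fr → ℝ) :=
      (LinearMap.funLeft ℝ ℝ (fun t : Fr => (t : Q))).comp W.subtype
    have hR : Function.Injective R := by
      rw [injective_iff_map_eq_zero]
      rintro ⟨d, hd⟩ h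
      exact Subtype.ext (h2 d hd fun p hp => congrFun h ⟨p, hp⟩)
    have := LinearMap.finrank_le_finrank_of_injective hR
    simpa using this
  · let L : (Q → ℝ) →ₗ[ℝ] ((Frᶜ : Finset Q) → ℝ) := LinearMap.pi fun p => lam p
    have hk : LinearMap.ker L ≤ W := by
      intro d hd
      refine h1 d fun p hp => ?_
      exact congrFun (LinearMap.mem_ker.1 hd) ⟨p, Finset.mem_compl.2 hp⟩
    have h3 := Submodule.finrank_mono hk
    have h4 := LinearMap.finrank_range_add_finrank_ker L
    have h5 := Submodule.finrank_le (LinearMap.range L)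
    have h6 : Module.finrank ℝ ((Frᶜ : Finset Q) → ℝ) = Fintype.card Q - Fr.card := by
      simp
    have h7 : Module.finrank ℝ (Q → ℝ) = Fintype.card Q := by simp
    have h8 := Finset.card_le_univ Fr
    omega

/-- Existence of a potential along a cyclic permutation. -/
lemma exists_potential {J : Type*} [Fintype J] [Nonempty J] (prev : J ≃ J)
    (hind : ∀ (P : J → Prop) (j0 : J), P j0 → (∀ j, P (prev j) → P j) → ∀ j, P j)
    (dl : J → ℝ) (hs : ∑ j, dl j = 0) : ∃ h : J → ℝ, ∀ j, h j - h (prev j) = dl j := by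
  classical
  let L : (J → ℝ) →ₗ[ℝ] (J → ℝ) := LinearMap.id - LinearMap.funLeft ℝ ℝ prev
  have hL : ∀ h j, L h j = h j - h (prev j) := fun h j => rfl
  let S : (J → ℝ) →ₗ[ℝ] ℝ := ∑ j, LinearMap.proj j
  have hS : ∀ h, S h = ∑ j, h j := fun h => by simp [S]
  obtain ⟨j0⟩ := ‹Nonempty J›
  have hk : Module.finrank ℝ (LinearMap.ker L) ≤ 1 := by
    let R : LinearMap.ker L →ₗ[ℝ] ℝ := (LinearMap.proj j0).comp (LinearMap.ker L).subtype
    have hR : Function.Injective R := by
      rw [injective_iff_map_eq_zero]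
      rintro ⟨d, hd⟩ h
      refine Subtype.ext (funext (hind (fun j => d j = 0) j0 h fun j hj => ?_))
      have := congrFun (LinearMap.mem_ker.1 hd) j
      rw [hL] at this
      simp only [Pi.zero_apply] at this
      linarith
    simpa using LinearMap.finrank_le_finrank_of_injective hR
  have hle : LinearMap.range L ≤ LinearMap.ker S := by
    rintro _ ⟨h, rfl⟩
    rw [LinearMap.mem_ker, hS]
    simp only [hL, Finset.sum_sub_distrib]
    rw [Equiv.sum_comp prev h, sub_self]
  have hS1 : Module.finrank ℝ (LinearMap.range S) = 1 := by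
    have : LinearMap.range S = ⊤ := by
      rw [LinearMap.range_eq_top]
      intro r
      exact ⟨Pi.single j0 r, by simp [hS]⟩
    rw [this]; simp
  have h1 := LinearMap.finrank_range_add_finrank_ker L
  have h2 := LinearMap.finrank_range_add_finrank_ker S
  have heq : LinearMap.range L = LinearMap.ker S :=
    Submodule.eq_of_le_of_finrank_le hle (by omega)
  have : dl ∈ LinearMap.range L := by
    rw [heq, LinearMap.mem_ker, hS, hs]
  obtain ⟨h, hh⟩ := this
  exact ⟨h, fun j => by rw [← hL, hh]⟩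

end Pool.Agent.P.MP_6e91db_co
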