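import Mathlib
import Pool.Agent.P.MP_6e91db_co.LC

/-! Counting cyclic words by a transfer matrix. Letters: 0 bottom value, 1 top value,
2 start of a middle block, 3 continuation of a middle block. -/

namespace Pool.Agent.P.MP_6e91db_co

open Polynomial Finset

section Transfer
variable {s R : Type*} [Fintype s] [DecidableEq s] [CommRing R] (T : Matrix s s R)

lemma path_sum (N : s → R) (m : ℕ) (a : s) :
    ∑ w : Fin m → s, (∏ i : Fin m, T ((Fin.cons a w : Fin (m + 1) → s) i.castSucc) (w i)) *
      N ((Fin.cons a w : Fin (m + 1) → s) (Fin.last m)) = ∑ b, (T ^ m) a b * N b := by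
  induction m generalizing a with
  | zero => simp [Matrix.one_apply]
  | succ m ih =>
    rw [← (Fin.consEquiv fun _ => s).sum_comp, Fintype.sum_prod_type]
    have h1 : ∀ c : s, ∑ w : Fin m → s,
        (∏ i : Fin (m + 1), T ((Fin.cons a ((Fin.consEquiv fun _ => s) (c, w)) :
          Fin (m + 1 + 1) → s) i.castSucc) (((Fin.consEquiv fun _ => s) (c, w)) i)) *
        N ((Fin.cons a ((Fin.consEquiv fun _ => s) (c, w)) : Fin (m + 1 + 1) → s)
          (Fin.last (m + 1))) = T a c * ∑ b, (T ^ m) c b * N b := by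
      intro c
      rw [← ih c, Finset.mul_sum]
      refine Finset.sum_congr rfl fun w _ => ?_
      rw [Fin.prod_univ_succ, mul_assoc]
      rfl
    simp only [h1, pow_succ', Matrix.mul_apply, Finset.mul_sum, Finset.sum_mul, mul_assoc]
    exact Finset.sum_comm

lemma cyc_sum (m : ℕ) :
    ∑ w : Fin (m + 1) → s, ∏ i, T (w i) (w (i + 1)) = (T ^ (m + 1)).trace := by
  rw [← (Fin.consEquiv fun _ => s).sum_comp, Fintype.sum_prod_type, Matrix.trace]
  refine Finset.sum_congr rfl fun a _ => ?_
  have := path_sum T (fun b => T b a) m a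
  rw [Matrix.diag_apply, pow_succ, Matrix.mul_apply, ← this]
  refine Finset.sum_congr rfl fun w _ => ?_
  rw [Fin.prod_univ_castSucc]
  simp [Fin.consEquiv]

end Transfer

/-- Allowed consecutive letters; the flag says whether the step goes up. -/
def ok (up : Bool) (a c : Fin 4) : Prop :=
  (c = 3 → 2 ≤ a) ∧ (up = true → (a = 1 → c = 1) ∧ (c = 0 → a = 0)) ∧
    (up = false → (a = 0 → c = 0) ∧ (c = 1 → a = 1))

instance (up : Bool) (a c : Fin 4) : Decidable (ok up a c) := by unfold ok; infer_instance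

/-- Weight of a letter. -/
noncomputable def wt (c : Fin 4) : ℝ[X] := if c = 2 then X else 1

/-- Weight of a step. -/
noncomputable def stepW (up : Bool) (a c : Fin 4) : ℝ[X] := if ok up a c then wt c else 0

/-- The transfer matrix. -/
noncomputable def TM : Matrix (Fin 4) (Fin 4) ℝ[X] :=
  !![2 + X, 1, X + X ^ 2, X; 1, 1, X, 0; 2 + X, 1, 2 * X + X ^ 2, X + 1;
    2 + X, 1, 2 * X + X ^ 2, X + 1]

lemma TM_eq (a b : Fin 4) : ∑ c, stepW true a c * stepW false c b = TM a b := by
  fin_cases a <;> fin_cases b <;> simp [Fin.sum_univ_four, stepW, wt, ok, TM] <;> ring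

lemma TM_rel : TM ^ 4 = ((X + 2) ^ 2 : ℝ[X]) • TM ^ 3 - (2 * (X + 1) * (X + 2) : ℝ[X]) • TM ^ 2
    + ((X + 1) ^ 2 : ℝ[X]) • TM := by
  have h : ∀ k, TM ^ (k + 1) = TM ^ k * TM := fun k => pow_succ _ _
  rw [h 3, h 2, h 1, pow_one]
  refine Matrix.ext fun i j => ?_
  fin_cases i <;> fin_cases j <;>
    simp [Matrix.mul_apply, Fin.sum_univ_four, TM] <;> ring

lemma TM_trace (k : ℕ) : (TM ^ (k + 1)).trace = 1 + (X + 1) ^ (k + 1) * ch (k + 1) ∧
    (TM ^ (k + 2)).trace = 1 + (X + 1) ^ (k + 2) * ch (k + 2) ∧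
    (TM ^ (k + 3)).trace = 1 + (X + 1) ^ (k + 3) * ch (k + 3) := by
  have h : ∀ k, TM ^ (k + 1) = TM ^ k * TM := fun k => pow_succ _ _
  have c0 : ch 0 = 2 := rfl
  have c1 : ch 1 = X + 3 := rfl
  induction k with
  | zero =>
    simp only [zero_add]
    rw [h 2, h 1, pow_one, ch_add_two 1, ch_add_two 0, c0, c1]
    refine ⟨?_, ?_, ?_⟩ <;>
      simp [Matrix.trace, Matrix.mul_apply, Fin.sum_univ_four, TM] <;> ring
  | succ k ih =>
    refine ⟨ih.2.1, ih.2.2, ?_⟩
    have e : TM ^ (k + 1 + 3) = TM ^ k * TM ^ 4 := by rw [← pow_add]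
    rw [e, TM_rel, mul_add, mul_sub, Matrix.mul_smul, Matrix.mul_smul, Matrix.mul_smul,
      ← pow_add, ← pow_add, ← pow_succ, Matrix.trace_add, Matrix.trace_sub, Matrix.trace_smul,
      Matrix.trace_smul, Matrix.trace_smul, ih.1, ih.2.1, ih.2.2]
    have e1 : ch (k + 1 + 3) = (X + 3) * ch (k + 3) - ch (k + 2) := ch_add_two (k + 2)
    have e2 : ch (k + 3) = (X + 3) * ch (k + 2) - ch (k + 1) := ch_add_two (k + 1)
    rw [e1, e2]
    simp only [smul_eq_mul]
    ring

section Words
variable (m : ℕ)

/-- Positions: `(i, false)` is vertex `i`, `(i, true)` is the edge from `i` to `i + 1`. -/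
abbrev Pos := Fin (m + 1) × Bool

/-- The previous position along the cycle. -/
def prev : Pos m ≃ Pos m where
  toFun j := if j.2 then (j.1, false) else (j.1 - 1, true)
  invFun j := if j.2 then (j.1 + 1, false) else (j.1, true)
  left_inv := by rintro ⟨i, _ | _⟩ <;> simp
  right_inv := by rintro ⟨i, _ | _⟩ <;> simp

variable {m}

@[simp] lemma prev_true (i : Fin (m + 1)) : prev m (i, true) = (i, false) := rfl
@[simp] lemma prev_false (i : Fin (m + 1)) : prev m (i, false) = (i - 1, true) := rfl

lemma prev_ind (P : Pos m → Prop) (j0 : Pos m) (h0 : P j0) (hs : ∀ j, P (prev m j) → P j) :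
    ∀ j, P j := by
  have h1 : ∀ i, P (i, false) → P (i, true) := fun i h => hs (i, true) h
  have h2 : ∀ i, P (i, true) → P (i + 1, false) := fun i h => hs (i + 1, false) (by simpa using h)
  obtain ⟨i0, hi0⟩ : ∃ i0, P (i0, false) := by
    rcases j0 with ⟨i, _ | _⟩
    · exact ⟨i, h0⟩
    · exact ⟨i + 1, h2 i h0⟩
  have h3 : ∀ k : ℕ, P (k • (1 : Fin (m + 1)) + i0, false) := by
    intro k
    induction k with
    | zero => simpa using hi0
    | succ k ih =>
      have := h2 _ (h1 _ ih)
      rwa [succ_nsmul, add_right_comm]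
  have h4 : ∀ i, P (i, false) := by
    intro i
    have h5 : ((i - i0 : Fin (m + 1)) : ℕ) • (1 : Fin (m + 1)) = i - i0 := by
      have : ∀ (x : ZMod (m + 1)), x.val • (1 : ZMod (m + 1)) = x := fun x => by simp
      exact this (i - i0)
    have := h3 (i - i0 : Fin (m + 1))
    rwa [h5, sub_add_cancel] at this
  rintro ⟨i, _ | _⟩
  · exact h4 i
  · exact h1 i (h4 i)

/-- Local validity of a word. -/
def LocValid (w : Pos m → Fin 4) : Prop := ∀ j, ok j.2 (w (prev m j)) (w j)

/-- Validity of a word. -/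
def ValidW (w : Pos m → Fin 4) : Prop :=
  LocValid w ∧ ((∀ j, 2 ≤ w j) →
    ((∃ j, j.2 = true ∧ w j = 2) ↔ (∃ j, j.2 = false ∧ w j = 2)))

/-- Number of block starts. -/
def nS (w : Pos m → Fin 4) : ℕ := (univ.filter fun j => w j = 2).card

/-- Number of middle blocks. -/
def dimW (w : Pos m → Fin 4) : ℕ := nS w + if ∀ j, w j = 3 then 1 else 0

lemma prod_wt (w : Pos m → Fin 4) : ∏ j, wt (w j) = X ^ nS w := by
  simp [wt, nS, Finset.prod_ite]

open Classical in
lemma sum_loc : ∑ w : Pos m → Fin 4, (if LocValid w then X ^ nS w else 0 : ℝ[X]) =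
    1 + (X + 1) ^ (m + 1) * ch (m + 1) := by
  have h1 : ∀ w : Pos m → Fin 4, (if LocValid w then X ^ nS w else 0 : ℝ[X]) =
      ∏ j, stepW j.2 (w (prev m j)) (w j) := by
    intro w
    simp only [stepW]
    rw [Finset.prod_ite_zero, prod_wt]
    simp [LocValid]
  let e : (Fin (m + 1) → Fin 4) × (Fin (m + 1) → Fin 4) ≃ (Pos m → Fin 4) :=
    { toFun := fun p j => if j.2 then p.2 j.1 else p.1 j.1
      invFun := fun w => (fun i => w (i, false), fun i => w (i, true))
      left_inv := fun p => by simp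
      right_inv := fun w => by funext ⟨i, b⟩; cases b <;> simp }
  simp only [h1]
  rw [← e.sum_comp, Fintype.sum_prod_type, ← (TM_trace m).1, ← cyc_sum]
  refine Finset.sum_congr rfl fun v _ => ?_
  simp only [← TM_eq]
  rw [Finset.prod_univ_sum]
  refine Finset.sum_congr (by simp) fun u _ => ?_
  rw [Fintype.prod_prod_type, Finset.prod_mul_distrib]
  simp only [Fintype.prod_bool, Finset.prod_mul_distrib]
  congr 1
  rw [← Equiv.prod_comp (Equiv.addRight (1 : Fin (m + 1)))]
  refine Finset.prod_congr rfl fun i _ => ?_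
  simp [e]

open Classical in
lemma sum_bad (b : Bool) :
    ∑ w : Pos m → Fin 4, (if ∀ j, w j = 3 ∨ (j.2 = b ∧ w j = 2) then X ^ nS w else 0 : ℝ[X]) =
      (X + 1) ^ (m + 1) := by
  have h1 : ∀ w : Pos m → Fin 4,
      (if ∀ j, w j = 3 ∨ (j.2 = b ∧ w j = 2) then X ^ nS w else 0 : ℝ[X]) =
      ∏ j, (if w j = 3 ∨ (j.2 = b ∧ w j = 2) then wt (w j) else 0) := by
    intro w
    rw [Finset.prod_ite_zero, prod_wt]
    simp
  simp only [h1]
  have h2 := Finset.prod_univ_sum (fun _ : Pos m => (univ : Finset (Fin 4)))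
    (fun j c => if c = 3 ∨ (j.2 = b ∧ c = 2) then wt c else 0)
  rw [Fintype.piFinset_univ] at h2
  rw [← h2, Fintype.prod_prod_type]
  cases b <;> simp [Fin.sum_univ_four, wt]

open Classical in
lemma sum_valid : ∑ w : Pos m → Fin 4, (if ValidW w then X ^ dimW w else 0 : ℝ[X]) =
    2 + X + (X + 1) ^ (m + 1) * (ch (m + 1) - 2) := by
  have h1 : ∀ w : Pos m → Fin 4, (if ValidW w then X ^ dimW w else 0 : ℝ[X]) =
      (if LocValid w then X ^ nS w else 0)
      - (if ∀ j, w j = 3 ∨ (j.2 = true ∧ w j = 2) then X ^ nS w else 0)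
      - (if ∀ j, w j = 3 ∨ (j.2 = false ∧ w j = 2) then X ^ nS w else 0)
      + (if w = fun _ => 3 then 1 + X else 0) := by
    intro w
    by_cases hC : ∀ j, w j = 3
    · have hw : w = fun _ => 3 := funext hC
      have hL : LocValid w := fun j => by rw [hC, hC]; cases j.2 <;> decide
      have hV : ValidW w := ⟨hL, fun _ => by simp [hC]⟩
      have hn : nS w = 0 := by simp [nS, hC]
      rw [if_pos hV, if_pos hL, if_pos fun j => Or.inl (hC j), if_pos fun j => Or.inl (hC j),
        if_pos hw, dimW, if_pos hC, hn]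
      ring
    · have hw : ¬ w = fun _ => 3 := fun h => hC (congrFun h)
      rw [if_neg hw, dimW, if_neg hC, add_zero, add_zero]
      obtain ⟨j0, hj0⟩ := not_forall.1 hC
      have key : ∀ b : Bool, (∀ j, w j = 3 ∨ (j.2 = b ∧ w j = 2)) →
          LocValid w ∧ ¬ ValidW w ∧ ¬ ∀ j, w j = 3 ∨ (j.2 = !b ∧ w j = 2) := by
        intro b hb
        have hM : ∀ j, 2 ≤ w j := fun j => by
          rcases hb j with h | h
          · rw [h]; decide
          · rw [h.2]
        have hj1 := (hb j0).resolve_left hj0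
        refine ⟨fun j => ?_, fun hV => ?_, fun hb' => ?_⟩
        · have a1 := hM j
          have a2 := hM (prev m j)
          revert a1 a2
          generalize w j = c
          generalize w (prev m j) = a
          generalize j.2 = u
          revert u a c
          decide
        · have h2 := hV.2 hM
          have h3 : ∀ j, w j = 2 → j.2 = b := fun j hj => by
            rcases hb j with h | h
            · rw [hj] at h; exact absurd h (by decide)
            · exact h.1
          cases b
          · obtain ⟨j, hj, hj'⟩ := h2.2 ⟨j0, hj1⟩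
            have := h3 j hj'
            simp [hj] at this
          · obtain ⟨j, hj, hj'⟩ := h2.1 ⟨j0, hj1⟩
            have := h3 j hj'
            simp [hj] at this
        · have := (hb' j0).resolve_left hj0
          rw [hj1.1] at this
          simp at this
      by_cases hT : ∀ j, w j = 3 ∨ (j.2 = true ∧ w j = 2)
      · obtain ⟨k1, k2, k3⟩ := key true hT
        rw [if_neg k2, if_pos k1, if_pos hT, if_neg (by simpa using k3)]
        ring
      · by_cases hF : ∀ j, w j = 3 ∨ (j.2 = false ∧ w j = 2)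
        · obtain ⟨k1, k2, k3⟩ := key false hF
          rw [if_neg k2, if_pos k1, if_neg hT, if_pos hF]
          ring
        · rw [if_neg hT, if_neg hF, sub_zero, sub_zero]
          refine if_congr ⟨fun h => h.1, fun h => ⟨h, fun hM => ?_⟩⟩ rfl rfl
          have h23 : ∀ j, w j = 3 ∨ w j = 2 := fun j => by
            have := hM j
            revert this
            generalize w j = c
            revert c
            decide
          obtain ⟨j1, hj1⟩ := not_forall.1 hT
          obtain ⟨j2, hj2⟩ := not_forall.1 hF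
          have a1 : w j1 = 2 := (h23 j1).resolve_left fun h => hj1 (Or.inl h)
          have a2 : w j2 = 2 := (h23 j2).resolve_left fun h => hj2 (Or.inl h)
          refine ⟨fun _ => ⟨j1, ?_, a1⟩, fun _ => ⟨j2, ?_, a2⟩⟩
          · by_contra hb
            exact hj1 (Or.inr ⟨by simpa using hb, a1⟩)
          · by_contra hb
            exact hj2 (Or.inr ⟨by simpa using hb, a2⟩)
  simp only [h1]
  rw [Finset.sum_add_distrib, Finset.sum_sub_distrib, Finset.sum_sub_distrib, sum_loc,
    sum_bad true, sum_bad false]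
  simp only [Finset.sum_ite_eq', Finset.mem_univ, if_true]
  ring

end Words

end Pool.Agent.P.MP_6e91db_co
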