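import Mathlib
import Pool.Agent.P.MP_6e91db_co.Poly
import Pool.Agent.P.MP_6e91db_co.Words

/-! Combinatorial types of points of the order polytope of a crown with bottom and top. -/

namespace Pool.Agent.P.MP_6e91db_co

open Finset

section Order
variable {Q : Type} [PartialOrder Q]

/-- Index set of the defining inequalities of the order polytope. -/
abbrev Con (Q : Type) [PartialOrder Q] := Q ⊕ Q ⊕ {pq : Q × Q // pq.1 ≤ pq.2}

/-- Coordinate functionals. -/
def pr (p : Q) : (Q → ℝ) →L[ℝ] ℝ := ContinuousLinearMap.proj p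

/-- Coordinate functionals, linear version. -/
def prl (p : Q) : (Q → ℝ) →ₗ[ℝ] ℝ := LinearMap.proj p

omit [PartialOrder Q] in
@[simp] lemma pr_apply (p : Q) (x : Q → ℝ) : pr p x = x p := rfl

omit [PartialOrder Q] in
@[simp] lemma prl_apply (p : Q) (x : Q → ℝ) : prl p x = x p := rfl

/-- Left-hand sides. -/
noncomputable def cl (Q : Type) [PartialOrder Q] : Con Q → ((Q → ℝ) →L[ℝ] ℝ)
  | Sum.inl p => -pr p
  | Sum.inr (Sum.inl p) => pr p
  | Sum.inr (Sum.inr pq) => pr pq.1.1 - pr pq.1.2

/-- Right-hand sides. -/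
def cb (Q : Type) [PartialOrder Q] : Con Q → ℝ
  | Sum.inl _ => 0
  | Sum.inr (Sum.inl _) => 1
  | Sum.inr (Sum.inr _) => 0

lemma mem_poly (x : Q → ℝ) : x ∈ poly (cl Q) (cb Q) ↔
    (∀ a, 0 ≤ x a ∧ x a ≤ 1) ∧ ∀ a b, a ≤ b → x a ≤ x b := by
  simp [poly, cl, cb, forall_and, and_assoc]

lemma tight_subset_iff (x y : Q → ℝ) : tight (cl Q) (cb Q) x ⊆ tight (cl Q) (cb Q) y ↔
    (∀ p, x p = 0 → y p = 0) ∧ (∀ p, x p = 1 → y p = 1) ∧
      ∀ p q, p ≤ q → x p = x q → y p = y q := by
  simp [Set.subset_def, tight, cl, cb, sub_eq_zero]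

lemma mem_dir (x d : Q → ℝ) : d ∈ dir (cl Q) (cb Q) x ↔
    (∀ p, x p = 0 → d p = 0) ∧ (∀ p, x p = 1 → d p = 0) ∧
      ∀ p q, p ≤ q → x p = x q → d p = d q := by
  show (∀ c ∈ tight (cl Q) (cb Q) x, cl Q c d = 0) ↔ _
  simp [tight, cl, cb, sub_eq_zero]

/-- The poset is a crown with a bottom and a top adjoined. -/
structure IsCrown {m : ℕ} (bt tp : Q) (z : Pos m → Q) : Prop where
  cases : ∀ p, p = bt ∨ p = tp ∨ ∃ j, p = z j
  inj : Function.Injective z
  ne_bt : ∀ j, z j ≠ bt
  ne_tp : ∀ j, z j ≠ tp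
  bt_ne : bt ≠ tp
  bt_le : ∀ p, bt ≤ p
  le_tp : ∀ p, p ≤ tp
  le_iff : ∀ j k, z j ≤ z k ↔
    j = k ∨ (k.2 = true ∧ j = prev m k) ∨ (j.2 = false ∧ k = prev m j)

variable {m : ℕ} {bt tp : Q} {z : Pos m → Q}

open Classical in
/-- The letter of a point at a position. -/
noncomputable def letter (bt tp : Q) (z : Pos m → Q) (x : Q → ℝ) (j : Pos m) : Fin 4 :=
  if x (z j) = x bt then 0 else if x (z j) = x tp then 1
  else if x (z j) = x (z (prev m j)) then 3 else 2

omit [PartialOrder Q] in
lemma letter0 {x : Q → ℝ} {j : Pos m} : letter bt tp z x j = 0 ↔ x (z j) = x bt := by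
  unfold letter; split_ifs <;> simp_all

omit [PartialOrder Q] in
lemma letter1 {x : Q → ℝ} {j : Pos m} :
    letter bt tp z x j = 1 ↔ x (z j) ≠ x bt ∧ x (z j) = x tp := by
  unfold letter; split_ifs <;> simp_all

omit [PartialOrder Q] in
lemma letter2 {x : Q → ℝ} {j : Pos m} : letter bt tp z x j = 2 ↔
    x (z j) ≠ x bt ∧ x (z j) ≠ x tp ∧ x (z j) ≠ x (z (prev m j)) := by
  unfold letter; split_ifs <;> simp_all

omit [PartialOrder Q] in
lemma letter3 {x : Q → ℝ} {j : Pos m} : letter bt tp z x j = 3 ↔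
    x (z j) ≠ x bt ∧ x (z j) ≠ x tp ∧ x (z j) = x (z (prev m j)) := by
  unfold letter; split_ifs <;> simp_all

omit [PartialOrder Q] in
lemma letterM {x : Q → ℝ} {j : Pos m} :
    2 ≤ letter bt tp z x j ↔ x (z j) ≠ x bt ∧ x (z j) ≠ x tp := by
  unfold letter; split_ifs <;> simp_all

lemma fin4 (c : Fin 4) : c = 0 ∨ c = 1 ∨ c = 2 ∨ c = 3 := by revert c; decide

/-- Combinatorial types. -/
abbrev Ty (m : ℕ) := Bool × Bool × Bool × (Pos m → Fin 4)

open Classical in
/-- The type of a point. -/
noncomputable def tpe (bt tp : Q) (z : Pos m → Q) (x : Q → ℝ) : Ty m :=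
  (decide (x bt = 0), decide (x tp = 1), decide (x bt = x tp), letter bt tp z x)

/-- Types that occur. -/
def ValidT (t : Ty m) : Prop :=
  (t.2.2.1 = true ∧ ¬ (t.1 = true ∧ t.2.1 = true) ∧ t.2.2.2 = fun _ => 0) ∨
    (t.2.2.1 = false ∧ ValidW t.2.2.2)

/-- The dimension of the face of a given type. -/
def dimT (t : Ty m) : ℕ :=
  if t.2.2.1 = true then (if t.1 = true ∨ t.2.1 = true then 0 else 1)
  else (if t.1 = true then 0 else 1) + (if t.2.1 = true then 0 else 1) + dimW t.2.2.2

namespace IsCrown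
variable (H : IsCrown bt tp z)
include H

lemma up (j : Pos m) (h : j.2 = true) : z (prev m j) ≤ z j :=
  (H.le_iff _ _).2 (Or.inr (Or.inl ⟨h, rfl⟩))

lemma down (j : Pos m) (h : j.2 = false) : z j ≤ z (prev m j) :=
  (H.le_iff _ _).2 (Or.inr (Or.inr ⟨h, rfl⟩))

lemma pairs {R : Q → Q → Prop} (h0 : ∀ p, R p p) (h1 : ∀ p, R bt p) (h2 : ∀ p, R p tp)
    (h3 : ∀ j, j.2 = true → R (z (prev m j)) (z j))
    (h4 : ∀ j, j.2 = false → R (z j) (z (prev m j))) : ∀ p q, p ≤ q → R p q := by
  intro p q hpq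
  rcases H.cases p with rfl | rfl | ⟨j, rfl⟩
  · exact h1 q
  · rw [le_antisymm (H.le_tp q) hpq]; exact h0 _
  · rcases H.cases q with rfl | rfl | ⟨k, rfl⟩
    · exact absurd (le_antisymm hpq (H.bt_le _)) (H.ne_bt j)
    · exact h2 _
    · rcases (H.le_iff _ _).1 hpq with rfl | ⟨h, rfl⟩ | ⟨h, rfl⟩
      · exact h0 _
      · exact h3 k h
      · exact h4 j h

lemma prev_eq {x y : Q → ℝ} (h : ∀ p q, p ≤ q → x p = x q → y p = y q) (j : Pos m)
    (hj : x (z j) = x (z (prev m j))) : y (z j) = y (z (prev m j)) := by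
  cases hb : j.2
  · exact h _ _ (H.down j hb) hj
  · exact (h _ _ (H.up j hb) hj.symm).symm

lemma pair_eq {x y : Q → ℝ} (h1 : ∀ p, x p = x bt → y p = y bt)
    (h2 : ∀ p, x p = x tp → y p = y tp)
    (h3 : ∀ j, letter bt tp z x j = 3 → y (z j) = y (z (prev m j))) :
    ∀ p q, p ≤ q → x p = x q → y p = y q := by
  have h4 : ∀ j, x (z j) = x (z (prev m j)) → y (z j) = y (z (prev m j)) := by
    intro j hj
    by_cases a1 : x (z j) = x bt
    · rw [h1 _ a1, h1 _ (hj.symm.trans a1)]
    · by_cases a2 : x (z j) = x tp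
      · rw [h2 _ a2, h2 _ (hj.symm.trans a2)]
      · exact h3 j (letter3.2 ⟨a1, a2, hj⟩)
  exact H.pairs (R := fun p q => x p = x q → y p = y q) (fun _ _ => rfl)
    (fun p h => (h1 p h.symm).symm) h2 (fun j _ h => (h4 j h.symm).symm) (fun j _ h => h4 j h)

lemma tight_of_tpe {x y : Q → ℝ} (hx : x ∈ poly (cl Q) (cb Q))
    (h : tpe bt tp z x = tpe bt tp z y) : tight (cl Q) (cb Q) x ⊆ tight (cl Q) (cb Q) y := by
  obtain ⟨hx1, hx2⟩ := (mem_poly x).1 hx
  simp only [tpe, Prod.mk.injEq, decide_eq_decide] at h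
  obtain ⟨e1, e2, e3, e4⟩ := h
  have h1 : ∀ p, x p = x bt → y p = y bt := by
    intro p hp
    rcases H.cases p with rfl | rfl | ⟨j, rfl⟩
    · rfl
    · exact (e3.1 hp.symm).symm
    · exact letter0.1 (e4 ▸ letter0.2 hp)
  have h2 : ∀ p, x p = x tp → y p = y tp := by
    intro p hp
    rcases H.cases p with rfl | rfl | ⟨j, rfl⟩
    · exact e3.1 hp
    · rfl
    · by_cases a1 : x (z j) = x bt
      · rw [h1 _ a1]; exact e3.1 (a1.symm.trans hp)
      · exact (letter1.1 (e4 ▸ letter1.2 ⟨a1, hp⟩)).2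
  refine (tight_subset_iff x y).2 ⟨fun p hp => ?_, fun p hp => ?_,
    H.pair_eq h1 h2 fun j hj => (letter3.1 (e4 ▸ hj)).2.2⟩
  · have a1 : x bt = 0 := le_antisymm (hp ▸ hx2 _ _ (H.bt_le p)) (hx1 _).1
    rw [h1 p (hp.trans a1.symm), e1.1 a1]
  · have a1 : x tp = 1 := le_antisymm (hx1 _).2 (hp ▸ hx2 _ _ (H.le_tp p))
    rw [h2 p (hp.trans a1.symm), e2.1 a1]

lemma tpe_of_tight {x y : Q → ℝ} (h : tight (cl Q) (cb Q) x = tight (cl Q) (cb Q) y) :
    tpe bt tp z x = tpe bt tp z y := by
  obtain ⟨a1, a2, a3⟩ := (tight_subset_iff x y).1 h.le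
  obtain ⟨b1, b2, b3⟩ := (tight_subset_iff y x).1 h.ge
  simp only [tpe, Prod.mk.injEq, decide_eq_decide]
  refine ⟨⟨a1 _, b1 _⟩, ⟨a2 _, b2 _⟩, ⟨a3 _ _ (H.bt_le _), b3 _ _ (H.bt_le _)⟩, funext fun j => ?_⟩
  have c1 : x (z j) = x bt ↔ y (z j) = y bt :=
    ⟨fun h => (a3 _ _ (H.bt_le _) h.symm).symm, fun h => (b3 _ _ (H.bt_le _) h.symm).symm⟩
  have c2 : x (z j) = x tp ↔ y (z j) = y tp := ⟨a3 _ _ (H.le_tp _), b3 _ _ (H.le_tp _)⟩
  have c3 : x (z j) = x (z (prev m j)) ↔ y (z j) = y (z (prev m j)) :=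
    ⟨H.prev_eq a3 j, H.prev_eq b3 j⟩
  simp only [letter, c1, c2, c3]

lemma tpe_valid {x : Q → ℝ} (hx : x ∈ poly (cl Q) (cb Q)) : ValidT (tpe bt tp z x) := by
  obtain ⟨hx1, hx2⟩ := (mem_poly x).1 hx
  have lo : ∀ p, x bt ≤ x p := fun p => hx2 _ _ (H.bt_le p)
  have hi : ∀ p, x p ≤ x tp := fun p => hx2 _ _ (H.le_tp p)
  by_cases he : x bt = x tp
  · refine Or.inl ⟨by simp [tpe, he], ?_, funext fun j => ?_⟩
    · simp only [tpe, decide_eq_true_eq]
      rintro ⟨a1, a2⟩
      linarith
    · exact letter0.2 (le_antisymm (he ▸ hi _) (lo _))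
  · refine Or.inr ⟨by simp [tpe, he], fun j => ⟨fun h => ?_, fun hb => ⟨fun h => ?_, fun h => ?_⟩,
      fun hb => ⟨fun h => ?_, fun h => ?_⟩⟩, fun hM => ?_⟩
    · obtain ⟨a1, a2, a3⟩ := letter3.1 h
      exact letterM.2 ⟨a3 ▸ a1, a3 ▸ a2⟩
    · have a1 := (letter1.1 h).2
      have a2 := hx2 _ _ (H.up j hb)
      have a3 : x (z j) = x tp := le_antisymm (hi _) (a1 ▸ a2)
      exact letter1.2 ⟨fun h' => he (h'.symm.trans a3), a3⟩
    · have a1 := letter0.1 h
      have a2 := hx2 _ _ (H.up j hb)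
      exact letter0.2 (le_antisymm (a1 ▸ a2) (lo _))
    · have a1 := letter0.1 h
      have a2 := hx2 _ _ (H.down j hb)
      exact letter0.2 (le_antisymm (a1 ▸ a2) (lo _))
    · have a1 := (letter1.1 h).2
      have a2 := hx2 _ _ (H.down j hb)
      have a3 : x (z (prev m j)) = x tp := le_antisymm (hi _) (a1 ▸ a2)
      exact letter1.2 ⟨fun h' => he (h'.symm.trans a3), a3⟩
    · have hsum : ∑ j, (x (z j) - x (z (prev m j))) = 0 := by
        rw [Finset.sum_sub_distrib, Equiv.sum_comp (prev m) fun j => x (z j), sub_self]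
      have hne : ∀ j, letter bt tp z x j ≠ 2 → x (z j) - x (z (prev m j)) = 0 := by
        intro j hj
        have a1 := letterM.1 (hM j)
        by_contra a2
        exact hj (letter2.2 ⟨a1.1, a1.2, fun h => a2 (sub_eq_zero.2 h)⟩)
      constructor
      · rintro ⟨j0, hb0, hj0⟩
        by_contra hno
        have a1 : ∀ j ∈ (univ : Finset (Pos m)), 0 ≤ x (z j) - x (z (prev m j)) := by
          intro j _
          cases hb : j.2
          · exact (hne j fun h => hno ⟨j, hb, h⟩).ge
          · exact sub_nonneg.2 (hx2 _ _ (H.up j hb))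
        have a2 := (Finset.sum_eq_zero_iff_of_nonneg a1).1 hsum j0 (mem_univ _)
        exact (letter2.1 hj0).2.2 (sub_eq_zero.1 a2)
      · rintro ⟨j0, hb0, hj0⟩
        by_contra hno
        have a1 : ∀ j ∈ (univ : Finset (Pos m)), x (z j) - x (z (prev m j)) ≤ 0 := by
          intro j _
          cases hb : j.2
          · exact sub_nonpos.2 (hx2 _ _ (H.down j hb))
          · exact (hne j fun h => hno ⟨j, hb, h⟩).le
        have a2 := (Finset.sum_eq_zero_iff_of_nonpos a1).1 hsum j0 (mem_univ _)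
        exact (letter2.1 hj0).2.2 (sub_eq_zero.1 a2)

end IsCrown

lemma exists_delta {w : Pos m → Fin 4} (hw : ValidW w) : ∃ dl : Pos m → ℝ, ∑ j, dl j = 0 ∧
    (∀ j, w j = 3 → dl j = 0) ∧ (∀ j, w j = 2 → j.2 = true → 0 < dl j) ∧
      ∀ j, w j = 2 → j.2 = false → dl j < 0 := by
  by_cases hM : ∀ j, 2 ≤ w j
  · have h := hw.2 hM
    let p : ℝ := ∑ j, if j.2 = true ∧ w j = 2 then 1 else 0
    let q : ℝ := ∑ j, if j.2 = false ∧ w j = 2 then 1 else 0
    have pos : ∀ b : Bool, (∃ j : Pos m, j.2 = b ∧ w j = 2) →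
        (0 : ℝ) < ∑ j : Pos m, if j.2 = b ∧ w j = 2 then 1 else 0 := by
      rintro b ⟨j, hj⟩
      refine Finset.sum_pos' (fun i _ => by split_ifs <;> norm_num) ⟨j, mem_univ _, ?_⟩
      rw [if_pos hj]; norm_num
    refine ⟨fun j => q * (if j.2 = true ∧ w j = 2 then 1 else 0) -
      p * (if j.2 = false ∧ w j = 2 then 1 else 0), ?_, fun j hj => ?_, fun j hj hb => ?_,
      fun j hj hb => ?_⟩
    · rw [Finset.sum_sub_distrib, ← Finset.mul_sum, ← Finset.mul_sum]
      show q * p - p * q = 0
      ring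
    · simp [hj]
    · have : 0 < q := pos false (h.1 ⟨j, hb, hj⟩)
      simpa [hj, hb] using this
    · have : 0 < p := pos true (h.2 ⟨j, hb, hj⟩)
      simpa [hj, hb] using this
  · obtain ⟨j0, hj0⟩ := not_forall.1 hM
    let d0 : Pos m → ℝ := fun j => if w j = 2 then (if j.2 = true then 1 else -1) else 0
    have hne : ∀ j, 2 ≤ w j → j ≠ j0 := fun j hj h => hj0 (h ▸ hj)
    refine ⟨fun j => d0 j - if j = j0 then ∑ i, d0 i else 0, ?_, fun j hj => ?_,
      fun j hj hb => ?_, fun j hj hb => ?_⟩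
    · simp [Finset.sum_sub_distrib]
    · simp [d0, hj, hne j (by rw [hj]; decide)]
    · simp [d0, hj, hb, hne j hj.ge]
    · simp [d0, hj, hb, hne j hj.ge]

namespace IsCrown
variable (H : IsCrown bt tp z)
include H

lemma realize {t : Ty m} (ht : ValidT t) : ∃ x ∈ poly (cl Q) (cb Q), tpe bt tp z x = t := by
  classical
  obtain ⟨al, be, ep, w⟩ := t
  rcases ht with ⟨h1, h2, h3⟩ | ⟨h1, h2⟩
  · simp only at h1 h2 h3
    subst h1 h3
    let c : ℝ := if al = true then 0 else if be = true then 1 else 1 / 2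
    refine ⟨fun _ => c, (mem_poly _).2 ⟨fun _ => ?_, fun _ _ _ => le_rfl⟩, ?_⟩
    · simp only [c]; split_ifs <;> norm_num
    · simp only [tpe, Prod.mk.injEq]
      refine ⟨?_, ?_, by simp, funext fun j => letter0.2 rfl⟩
      · cases al <;> cases be <;> simp [c]
      · cases al <;> cases be <;> simp_all [c]
  · simp only at h1 h2
    subst h1
    obtain ⟨dl, d1, d2, d3, d4⟩ := exists_delta h2
    obtain ⟨h, hh⟩ := exists_potential (prev m) prev_ind dl d1
    let a : ℝ := if al = true then 0 else 1 / 4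
    let b : ℝ := if be = true then 1 else 3 / 4
    let s : Pos m → ℝ := fun j => 1 / 4 + Real.sigmoid (h j) / 2
    have ha : 0 ≤ a ∧ a ≤ 1 / 4 := by simp only [a]; split_ifs <;> norm_num
    have hb : 3 / 4 ≤ b ∧ b ≤ 1 := by simp only [b]; split_ifs <;> norm_num
    have hs : ∀ j, a < s j ∧ s j < b := fun j => by
      have := Real.sigmoid_pos (h j)
      have := Real.sigmoid_lt_one (h j)
      simp only [s]
      constructor <;> linarith [ha.2, hb.1]
    have hab : a < b := by linarith [ha.2, hb.1]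
    let val : Pos m → ℝ := fun j => if w j = 0 then a else if w j = 1 then b else s j
    let x : Q → ℝ := Function.extend z val fun p => if p = bt then a else b
    have xz : ∀ j, x (z j) = val j := fun j => H.inj.extend_apply _ _ j
    have xb : x bt = a := by
      simp only [x]
      rw [Function.extend_apply' _ _ _ fun ⟨j, hj⟩ => H.ne_bt j hj, if_pos rfl]
    have xt : x tp = b := by
      simp only [x]
      rw [Function.extend_apply' _ _ _ fun ⟨j, hj⟩ => H.ne_tp j hj, if_neg H.bt_ne.symm]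
    have v0 : ∀ j, w j = 0 → val j = a := fun j hj => by simp [val, hj]
    have v1 : ∀ j, w j = 1 → val j = b := fun j hj => by simp [val, hj]
    have vM : ∀ j, w j ≠ 0 → w j ≠ 1 → val j = s j := fun j h0 h1 => by simp [val, h0, h1]
    have hv : ∀ j, a ≤ val j ∧ val j ≤ b := fun j => by
      simp only [val]
      split_ifs
      · exact ⟨le_rfl, hab.le⟩
      · exact ⟨hab.le, le_rfl⟩
      · exact ⟨(hs j).1.le, (hs j).2.le⟩
    have hx : ∀ p, a ≤ x p ∧ x p ≤ b := fun p => by
      rcases H.cases p with rfl | rfl | ⟨j, rfl⟩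
      · rw [xb]; exact ⟨le_rfl, hab.le⟩
      · rw [xt]; exact ⟨hab.le, le_rfl⟩
      · rw [xz]; exact hv j
    have smono : ∀ i j, h i ≤ h j → s i ≤ s j := fun i j hij => by
      have := Real.sigmoid_le hij
      simp only [s]; linarith
    have sinj : ∀ i j, s i = s j → h i = h j := fun i j hij => by
      apply Real.sigmoid_injective
      simp only [s] at hij; linarith
    refine ⟨x, (mem_poly _).2 ⟨fun p => ⟨ha.1.trans (hx p).1, (hx p).2.trans hb.2⟩, ?_⟩, ?_⟩
    · refine H.pairs (R := fun p q => x p ≤ x q) (fun _ => le_rfl) (fun p => xb ▸ (hx p).1)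
        (fun p => xt ▸ (hx p).2) (fun j hj => ?_) (fun j hj => ?_)
      · rw [xz, xz]
        obtain ⟨-, o2, -⟩ := h2.1 j
        by_cases a1 : w (prev m j) = 0
        · rw [v0 _ a1]; exact (hv j).1
        · by_cases a2 : w j = 1
          · rw [v1 _ a2]; exact (hv _).2
          · have a3 : w j ≠ 0 := fun h => a1 ((o2 hj).2 h)
            have a4 : w (prev m j) ≠ 1 := fun h => a2 ((o2 hj).1 h)
            rw [vM _ a1 a4, vM _ a3 a2]
            apply smono
            have := hh j
            rcases fin4 (w j) with h' | h' | h' | h'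
            · exact absurd h' a3
            · exact absurd h' a2
            · linarith [d3 j h' hj]
            · linarith [d2 j h']
      · rw [xz, xz]
        obtain ⟨-, -, o3⟩ := h2.1 j
        by_cases a1 : w j = 0
        · rw [v0 _ a1]; exact (hv _).1
        · by_cases a2 : w (prev m j) = 1
          · rw [v1 _ a2]; exact (hv _).2
          · have a3 : w (prev m j) ≠ 0 := fun h => a1 ((o3 hj).1 h)
            have a4 : w j ≠ 1 := fun h => a2 ((o3 hj).2 h)
            rw [vM _ a1 a4, vM _ a3 a2]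
            apply smono
            have := hh j
            rcases fin4 (w j) with h' | h' | h' | h'
            · exact absurd h' a1
            · exact absurd h' a4
            · linarith [d4 j h' hj]
            · linarith [d2 j h']
    · simp only [tpe, Prod.mk.injEq, xb, xt]
      refine ⟨?_, ?_, by simp [hab.ne], funext fun j => ?_⟩
      · cases al <;> simp [a]
      · cases be <;> norm_num [b]
      · rcases fin4 (w j) with h' | h' | h' | h' <;> rw [h']
        · exact letter0.2 (by rw [xz, xb, v0 j h'])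
        · exact letter1.2 (by rw [xz, xb, xt, v1 j h']; exact ⟨hab.ne', rfl⟩)
        · have e : val j = s j := vM j (by rw [h']; decide) (by rw [h']; decide)
          refine letter2.2 ?_
          rw [xz, xz, xb, xt, e]
          refine ⟨(hs j).1.ne', (hs j).2.ne, ?_⟩
          by_cases a1 : w (prev m j) = 0
          · rw [v0 _ a1]; exact (hs j).1.ne'
          · by_cases a2 : w (prev m j) = 1
            · rw [v1 _ a2]; exact (hs j).2.ne
            · rw [vM _ a1 a2]
              intro hc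
              have a3 := sinj _ _ hc
              have a4 := hh j
              cases hb' : j.2
              · linarith [d4 j h' hb']
              · linarith [d3 j h' hb']
        · have e : val j = s j := vM j (by rw [h']; decide) (by rw [h']; decide)
          have a0 : 2 ≤ w (prev m j) := (h2.1 j).1 h'
          have e' : val (prev m j) = s (prev m j) :=
            vM _ (fun h => by rw [h] at a0; exact absurd a0 (by decide))
              (fun h => by rw [h] at a0; exact absurd a0 (by decide))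
          refine letter3.2 ?_
          rw [xz, xz, xb, xt, e, e']
          refine ⟨(hs j).1.ne', (hs j).2.ne, ?_⟩
          have a3 : h j = h (prev m j) := by linarith [hh j, d2 j h']
          simp only [s, a3]

lemma sum_eq [Fintype Q] {M : Type*} [AddCommMonoid M] (f : Q → M) :
    ∑ p, f p = f bt + f tp + ∑ j, f (z j) := by
  classical
  have h : (univ : Finset Q) = insert bt (insert tp (univ.image z)) := by
    ext p
    simp only [mem_univ, mem_insert, mem_image, true_and, true_iff]
    rcases H.cases p with h | h | ⟨j, h⟩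
    · exact Or.inl h
    · exact Or.inr (Or.inl h)
    · exact Or.inr (Or.inr ⟨j, h.symm⟩)
  rw [h, Finset.sum_insert, Finset.sum_insert, Finset.sum_image fun i _ j _ hij => H.inj hij,
    add_assoc]
  · simp [H.ne_tp]
  · simp [H.bt_ne, H.ne_bt]

lemma finrank_dir [Fintype Q] {x : Q → ℝ} (hx : x ∈ poly (cl Q) (cb Q)) :
    Module.finrank ℝ (dir (cl Q) (cb Q) x) = dimT (tpe bt tp z x) := by
  classical
  obtain ⟨hx1, hx2⟩ := (mem_poly x).1 hx
  have lo : ∀ p, x bt ≤ x p := fun p => hx2 _ _ (H.bt_le p)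
  have hi : ∀ p, x p ≤ x tp := fun p => hx2 _ _ (H.le_tp p)
  by_cases he : x bt = x tp
  · have hc : ∀ p, x p = x bt := fun p => le_antisymm (he ▸ hi p) (lo p)
    rw [finrank_eq_card _ (if x bt = 0 ∨ x tp = 1 then ∅ else {bt})
      (fun p => if p = bt then prl bt else prl p - prl bt)]
    · simp only [dimT, tpe, he, decide_true, if_true, decide_eq_true_eq]
      split_ifs <;> simp
    · intro d hd
      have a1 : ∀ p, d p = d bt := fun p => by
        by_cases hp : p = bt
        · rw [hp]
        · have := hd p (by split_ifs <;> simp [hp])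
          simpa [hp, sub_eq_zero] using this
      have a2 : x bt = 0 ∨ x tp = 1 → d bt = 0 := fun h => by
        have := hd bt (by simp [h])
        simpa using this
      refine (mem_dir x d).2 ⟨fun p hp => ?_, fun p hp => ?_, fun p q _ _ => ?_⟩
      · rw [a1, a2 (Or.inl (hc p ▸ hp))]
      · rw [a1, a2 (Or.inr (he ▸ hc p ▸ hp))]
      · rw [a1 p, a1 q]
    · intro d hd h0
      obtain ⟨b1, b2, b3⟩ := (mem_dir x d).1 hd
      have a2 : d bt = 0 := by
        by_cases h : x bt = 0 ∨ x tp = 1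
        · rcases h with h | h
          · exact b1 _ h
          · exact b2 _ (he ▸ h)
        · exact h0 bt (by simp [h])
      funext p
      rw [← b3 _ _ (H.bt_le p) (hc p).symm, a2]
      rfl
  · set w := letter bt tp z x with hw
    let j0 : Pos m := (0, false)
    let fz : Pos m → Prop := fun j => w j = 2 ∨ ((∀ i, w i = 3) ∧ j = j0)
    obtain ⟨fr, fb, ft, fj⟩ : ∃ fr : Q → Prop, (fr bt ↔ x bt ≠ 0) ∧ (fr tp ↔ x tp ≠ 1) ∧
        ∀ j, fr (z j) ↔ fz j := by
      refine ⟨fun p => (p = bt ∧ x bt ≠ 0) ∨ (p = tp ∧ x tp ≠ 1) ∨ ∃ j, p = z j ∧ fz j,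
        ?_, ?_, fun j => ?_⟩
      · simp [H.bt_ne, fun j => (H.ne_bt j).symm]
      · simp [H.bt_ne.symm, fun j => (H.ne_tp j).symm]
      · simp only [H.ne_bt, H.ne_tp, H.inj.eq_iff, false_and, false_or, exists_eq_left']
    let par : Pos m → Q := fun j => if w j = 0 then bt else if w j = 1 then tp else z (prev m j)
    let lam : Q → (Q → ℝ) →ₗ[ℝ] ℝ := Function.extend z
      (fun j => prl (z j) - prl (par j)) fun p => prl p
    have lz : ∀ j d, lam (z j) d = d (z j) - d (par j) := fun j d => by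
      simp only [lam]; rw [H.inj.extend_apply]; rfl
    have lb : ∀ d, lam bt d = d bt := fun d => by
      simp only [lam]
      rw [Function.extend_apply' _ _ _ fun ⟨j, hj⟩ => H.ne_bt j hj]; rfl
    have lt : ∀ d, lam tp d = d tp := fun d => by
      simp only [lam]
      rw [Function.extend_apply' _ _ _ fun ⟨j, hj⟩ => H.ne_tp j hj]; rfl
    rw [finrank_eq_card _ (univ.filter fr) lam]
    · rw [Finset.card_filter, H.sum_eq]
      simp only [fb, ft, fj, dimT, tpe, he, decide_false, decide_eq_true_eq, ← hw, dimW, nS,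
        Bool.false_eq_true, if_false, ite_not]
      congr 1
      by_cases hC : ∀ i, w i = 3
      · simp [fz, hC]
      · simp only [fz, hC, false_and, or_false, if_false, add_zero, Finset.card_filter]
    · intro d hd
      have g : ∀ p, ¬ fr p → lam p d = 0 := fun p hp => hd p (by simpa using hp)
      have a1 : ∀ j, w j ≠ 2 → d (z j) = d (par j) := by
        intro j hj
        by_cases hC : (∀ i, w i = 3) ∧ j = j0
        · have hp : ∀ i, par i = z (prev m i) := fun i => by simp [par, hC.1 i]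
          have hsum : ∑ i, (d (z i) - d (z (prev m i))) = 0 := by
            rw [Finset.sum_sub_distrib, Equiv.sum_comp (prev m) fun i => d (z i), sub_self]
          rw [Finset.sum_eq_single j] at hsum
          · rw [hp]; exact sub_eq_zero.1 hsum
          · intro i _ hij
            rw [← hp, ← lz]
            refine g _ fun h => ?_
            rcases (fj i).1 h with h | h
            · rw [hC.1 i] at h; exact absurd h (by decide)
            · exact hij (h.2.trans hC.2.symm)
          · simp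
        · have := g (z j) fun h => ((fj j).1 h).elim hj hC
          rw [lz] at this
          exact sub_eq_zero.1 this
      have h1 : ∀ p, x p = x bt → d p = d bt := by
        intro p hp
        rcases H.cases p with rfl | rfl | ⟨j, rfl⟩
        · rfl
        · exact absurd hp.symm he
        · have : w j = 0 := letter0.2 hp
          rw [a1 j (by rw [this]; decide)]
          simp [par, this]
      have h2 : ∀ p, x p = x tp → d p = d tp := by
        intro p hp
        rcases H.cases p with rfl | rfl | ⟨j, rfl⟩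
        · exact absurd hp he
        · rfl
        · have : w j = 1 := letter1.2 ⟨fun h => he (h.symm.trans hp), hp⟩
          rw [a1 j (by rw [this]; decide)]
          simp [par, this]
      refine (mem_dir x d).2 ⟨fun p hp => ?_, fun p hp => ?_, H.pair_eq h1 h2 fun j hj => ?_⟩
      · have b1 : x bt = 0 := le_antisymm (hp ▸ lo p) (hx1 _).1
        rw [h1 p (hp.trans b1.symm), ← lb d]
        exact g _ fun h => fb.1 h b1
      · have b1 : x tp = 1 := le_antisymm (hx1 _).2 (hp ▸ hi p)
        rw [h2 p (hp.trans b1.symm), ← lt d]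
        exact g _ fun h => ft.1 h b1
      · have : w j = 3 := hj
        rw [a1 j (by rw [this]; decide)]
        simp [par, this]
    · intro d hd h0
      obtain ⟨b1, b2, b3⟩ := (mem_dir x d).1 hd
      have g : ∀ p, fr p → d p = 0 := fun p hp => h0 p (by simpa using hp)
      have db : d bt = 0 := by
        by_cases h : x bt = 0
        · exact b1 _ h
        · exact g _ (fb.2 h)
      have dt : d tp = 0 := by
        by_cases h : x tp = 1
        · exact b2 _ h
        · exact g _ (ft.2 h)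
      have direct : ∀ j, w j ≠ 3 → d (z j) = 0 := by
        intro j hj
        rcases fin4 (w j) with h' | h' | h' | h'
        · rw [← b3 _ _ (H.bt_le _) (letter0.1 h').symm, db]
        · rw [b3 _ _ (H.le_tp _) (letter1.1 h').2, dt]
        · exact g _ ((fj j).2 (Or.inl h'))
        · exact absurd h' hj
      obtain ⟨j1, hj1⟩ : ∃ j, d (z j) = 0 := by
        by_cases hC : ∀ i, w i = 3
        · exact ⟨j0, g _ ((fj j0).2 (Or.inr ⟨hC, rfl⟩))⟩
        · obtain ⟨j, hj⟩ := not_forall.1 hC
          exact ⟨j, direct j hj⟩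
      have all : ∀ j, d (z j) = 0 := by
        refine prev_ind (fun j => d (z j) = 0) j1 hj1 fun j hj => ?_
        by_cases h3 : w j = 3
        · rw [H.prev_eq b3 j (letter3.1 h3).2.2, hj]
        · exact direct j h3
      funext p
      rcases H.cases p with rfl | rfl | ⟨j, rfl⟩
      · exact db
      · exact dt
      · exact all j

end IsCrown

end Order

end Pool.Agent.P.MP_6e91db_co
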