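import Mathlib
import Pool.Agent.P.MP_6e91db_co.Types

/-! The face numbers of the order polytope are the coefficients of the explicit polynomial. -/

namespace Pool.Agent.P.MP_6e91db_co

open Finset Polynomial

open Classical in
lemma sum_types (m : ℕ) : ∑ t : Ty m, (if ValidT t then X ^ dimT t else 0 : ℝ[X]) =
    2 + X + (X + 1) ^ 2 * (2 + X + (X + 1) ^ (m + 1) * (ch (m + 1) - 2)) := by
  have h1 : ∀ al be : Bool, ∑ w : Pos m → Fin 4,
      (if ValidT (al, be, false, w) then X ^ dimT (al, be, false, w) else 0 : ℝ[X]) =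
      X ^ ((if al = true then 0 else 1) + (if be = true then 0 else 1)) *
        (2 + X + (X + 1) ^ (m + 1) * (ch (m + 1) - 2)) := by
    intro al be
    rw [← sum_valid, Finset.mul_sum]
    refine Finset.sum_congr rfl fun w _ => ?_
    have : ValidT (al, be, false, w) ↔ ValidW w := by simp [ValidT]
    simp only [this, dimT, Bool.false_eq_true, if_false]
    split_ifs <;> simp [pow_add]
  have h2 : ∀ al be : Bool, ∑ w : Pos m → Fin 4,
      (if ValidT (al, be, true, w) then X ^ dimT (al, be, true, w) else 0 : ℝ[X]) =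
      if al = true ∧ be = true then 0 else X ^ (if al = true ∨ be = true then 0 else 1) := by
    intro al be
    rw [Finset.sum_eq_single fun _ => 0]
    · cases al <;> cases be <;> simp [ValidT, dimT]
    · intro w _ hw
      rw [if_neg]
      simp [ValidT, hw]
    · simp
  rw [Fintype.sum_prod_type]
  simp only [Fintype.sum_prod_type (α₂ := Bool × (Pos m → Fin 4)),
    Fintype.sum_prod_type (α₂ := Pos m → Fin 4), Fintype.sum_bool, h1, h2]
  simp
  ring

lemma ncard_types (k i : ℕ) :
    (({t : Ty (k + 1) | t ∈ {t | ValidT t} ∧ dimT t = i}.ncard : ℕ) : ℝ) =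
      (fpoly k).coeff (i + 1) := by
  classical
  have e : fpoly k = 1 + X * ∑ t : Ty (k + 1), (if ValidT t then X ^ dimT t else 0 : ℝ[X]) := by
    rw [sum_types, fpoly]; ring
  rw [e, coeff_add, coeff_X_mul, finsetSum_coeff, coeff_one, if_neg (by omega), zero_add]
  have h : {t : Ty (k + 1) | t ∈ {t | ValidT t} ∧ dimT t = i} =
      ↑(univ.filter fun t : Ty (k + 1) => ValidT t ∧ dimT t = i) := by
    ext t; simp
  rw [h, Set.ncard_coe_finset, Finset.card_filter, Nat.cast_sum]
  refine Finset.sum_congr rfl fun t _ => ?_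
  by_cases h1 : ValidT t
  · simp [h1, coeff_X_pow, eq_comm]
  · simp [h1]

lemma fpoly_coeff_zero (k : ℕ) : (fpoly k).coeff 0 = 1 := by
  simp [fpoly, coeff_zero_eq_eval_zero]

theorem face_count {Q : Type} [PartialOrder Q] [Finite Q] {k : ℕ} {bt tp : Q}
    {z : Pos (k + 1) → Q} (H : IsCrown bt tp z) (K : Set (Q → ℝ))
    (hK : K = {x | (∀ a, 0 ≤ x a ∧ x a ≤ 1) ∧ ∀ a b, a ≤ b → x a ≤ x b}) (i : ℕ) :
    (({F : Set (Q → ℝ) | IsExposed ℝ K F ∧ F.Nonempty ∧
      Module.finrank ℝ (vectorSpan ℝ F) = i}.ncard : ℕ) : ℝ) = (fpoly k).coeff (i + 1) := by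
  classical
  have := Fintype.ofFinite Q
  have e : K = poly (cl Q) (cb Q) := by
    rw [hK]; ext x; exact (mem_poly x).symm
  rw [e, count_faces (tpe bt tp z) {t | ValidT t} dimT ?_ (fun x hx => H.tpe_valid hx)
    (fun t ht => H.realize ht) (fun x hx => H.finrank_dir hx) i, ncard_types]
  intro x hx y hy
  exact ⟨fun h => Set.Subset.antisymm (H.tight_of_tpe hx h) (H.tight_of_tpe hy h.symm),
    H.tpe_of_tight⟩

end Pool.Agent.P.MP_6e91db_co
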